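import Mathlib

/-!
Ring homomorphisms between graded rings which multiply degrees by a constant induce
homomorphisms of the degree zero parts of the localisations and morphisms of `Proj`.
-/

open AlgebraicGeometry CategoryTheory

namespace GMC.MORA

open HomogeneousLocalization

section Scale

variable {A B : Type} [CommRing A] [CommRing B] {σ τ : Type} [SetLike σ A]
  [AddSubgroupClass σ A] [SetLike τ B] [AddSubgroupClass τ B] {P : ℕ → σ} {Q : ℕ → τ}
  [GradedRing P] [GradedRing Q] {u : A →+* B} {e : ℕ}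
  (hu : ∀ d a, a ∈ P d → u a ∈ Q (e * d))

include hu in
theorem aw_ex (s : A) (z : Away P s) :
    ∃ w : Away Q (u s), w.val = Localization.awayMap u s z.val := by
  obtain ⟨⟨i, ⟨a, ha⟩, ⟨b, hb⟩, k, hk⟩, rfl⟩ := mk_surjective z
  have hk' : s ^ k = b := hk
  refine ⟨mk ⟨e * i, ⟨u a, hu i a ha⟩, ⟨u b, hu i b hb⟩, k, ?_⟩, ?_⟩
  · show u s ^ k = u b
    rw [← hk', map_pow]
  · rw [val_mk, val_mk]
    simp only
    subst hk'
    rw [Localization.mk_eq_mk', Localization.mk_eq_mk']
    show _ = IsLocalization.map _ _ _ _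
    rw [IsLocalization.map_mk']

/-- the induced homomorphism of degree zero parts -/
noncomputable def aw (s : A) : Away P s →+* Away Q (u s) where
  toFun z := (aw_ex hu s z).choose
  map_one' := by
    apply val_injective
    rw [(aw_ex hu s 1).choose_spec, val_one, map_one, val_one]
  map_mul' x y := by
    apply val_injective
    rw [(aw_ex hu s (x * y)).choose_spec, val_mul, map_mul, val_mul,
      (aw_ex hu s x).choose_spec, (aw_ex hu s y).choose_spec]
  map_zero' := by
    apply val_injective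
    rw [(aw_ex hu s 0).choose_spec, val_zero, map_zero, val_zero]
  map_add' x y := by
    apply val_injective
    rw [(aw_ex hu s (x + y)).choose_spec, val_add, map_add, val_add,
      (aw_ex hu s x).choose_spec, (aw_ex hu s y).choose_spec]

theorem aw_val (s : A) (z : Away P s) : (aw hu s z).val = Localization.awayMap u s z.val :=
  (aw_ex hu s z).choose_spec

theorem aw_comp {m : ℕ} {s t x : A} (ht : t ∈ P m) (hx : x = s * t)
    (hx' : u x = u s * u t) (z : Away P s) :
    awayMap Q (hu m t ht) hx' (aw hu s z) = aw hu x (awayMap P ht hx z) := by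
  apply val_injective
  rw [val_awayMap, aw_val, aw_val, val_awayMap]
  have key : (Localization.awayLift (algebraMap B (Localization.Away (u x))) (u s)
      (isUnit_of_dvd_unit (map_dvd _ ⟨_, hx'⟩) (IsLocalization.Away.algebraMap_isUnit (u x)))).comp
        (Localization.awayMap u s) = (Localization.awayMap u x).comp
      (Localization.awayLift (algebraMap A (Localization.Away x)) s
        (isUnit_of_dvd_unit (map_dvd _ ⟨_, hx⟩) (IsLocalization.Away.algebraMap_isUnit x))) := by
    apply IsLocalization.ringHom_ext (Submonoid.powers s)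
    ext a
    simp only [RingHom.comp_apply]
    have h1 : (Localization.awayMap u s) (algebraMap A (Localization.Away s) a) =
        algebraMap B (Localization.Away (u s)) (u a) := IsLocalization.map_eq _ _
    have h2 : (Localization.awayMap u x) (algebraMap A (Localization.Away x) a) =
        algebraMap B (Localization.Away (u x)) (u a) := IsLocalization.map_eq _ _
    have h3 : Localization.awayLift (algebraMap A (Localization.Away x)) s
        (isUnit_of_dvd_unit (map_dvd _ ⟨_, hx⟩) (IsLocalization.Away.algebraMap_isUnit x))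
        (algebraMap A (Localization.Away s) a) = algebraMap A (Localization.Away x) a :=
      IsLocalization.lift_eq _ _
    have h4 : Localization.awayLift (algebraMap B (Localization.Away (u x))) (u s)
        (isUnit_of_dvd_unit (map_dvd _ ⟨_, hx'⟩) (IsLocalization.Away.algebraMap_isUnit (u x)))
        (algebraMap B (Localization.Away (u s)) (u a)) = algebraMap B (Localization.Away (u x)) (u a) :=
      IsLocalization.lift_eq _ _
    rw [h1, h3, h4, h2]
  exact congrArg (fun f => f z.val) key

section Glue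

variable {ι : Type} {m : ℕ} (f : ι → A) (hf : ∀ i, f i ∈ P m) (hm : 0 < m) (he : 0 < e)
  (hcov : ∀ x : Proj Q, ∃ i, u (f i) ∉ x.asHomogeneousIdeal)

/-- the affine cover -/
noncomputable def cov : (Proj Q).AffineOpenCover where
  I₀ := ι
  X i := .of (Away Q (u (f i)))
  f i := Proj.awayι Q (u (f i)) (hu m _ (hf i)) (Nat.mul_pos he hm)
  idx x := (hcov x).choose
  covers x := by
    change x ∈ (Proj.awayι Q _ _ _).opensRange
    rw [Proj.opensRange_awayι]
    exact (hcov x).choose_spec

/-- the morphism on a chart -/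
noncomputable def loc (i : ι) : Spec (.of (Away Q (u (f i)))) ⟶ Proj P :=
  Spec.map (CommRingCat.ofHom (aw hu (f i))) ≫ Proj.awayι P (f i) (hf i) hm

theorem compat (i j : ι) :
    Limits.pullback.fst (Proj.awayι Q (u (f i)) (hu m _ (hf i)) (Nat.mul_pos he hm))
      (Proj.awayι Q (u (f j)) (hu m _ (hf j)) (Nat.mul_pos he hm)) ≫ loc hu f hf hm i =
    Limits.pullback.snd (Proj.awayι Q (u (f i)) (hu m _ (hf i)) (Nat.mul_pos he hm))
      (Proj.awayι Q (u (f j)) (hu m _ (hf j)) (Nat.mul_pos he hm)) ≫ loc hu f hf hm j := by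
  have hx : u (f i * f j) = u (f i) * u (f j) := map_mul u _ _
  rw [← Proj.pullbackAwayιIso_hom_SpecMap_awayMap_left Q (hu m _ (hf i)) (Nat.mul_pos he hm)
      (hu m _ (hf j)) (Nat.mul_pos he hm) hx,
    ← Proj.pullbackAwayιIso_hom_SpecMap_awayMap_right Q (hu m _ (hf i)) (Nat.mul_pos he hm)
      (hu m _ (hf j)) (Nat.mul_pos he hm) hx]
  rw [Category.assoc, Category.assoc]
  congr 1
  have e1 : (awayMap Q (hu m _ (hf j)) hx).comp (aw hu (f i)) =
      (aw hu (f i * f j)).comp (awayMap P (hf j) rfl) := by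
    ext1 z
    exact aw_comp hu (hf j) rfl hx z
  have e2 : (awayMap Q (hu m _ (hf i)) (hx.trans (mul_comm _ _))).comp (aw hu (f j)) =
      (aw hu (f i * f j)).comp (awayMap P (hf i) (mul_comm (f i) (f j))) := by
    ext1 z
    exact aw_comp hu (hf i) (mul_comm (f i) (f j)) (hx.trans (mul_comm _ _)) z
  rw [loc, loc, ← Category.assoc, ← Category.assoc, ← Spec.map_comp, ← Spec.map_comp,
    ← CommRingCat.ofHom_comp, ← CommRingCat.ofHom_comp, e1, e2, CommRingCat.ofHom_comp,
    CommRingCat.ofHom_comp, Spec.map_comp, Spec.map_comp, Category.assoc, Category.assoc,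
    Proj.SpecMap_awayMap_awayι, Proj.SpecMap_awayMap_awayι]

/-- the glued morphism -/
noncomputable def gl : Proj Q ⟶ Proj P :=
  Scheme.Cover.glueMorphisms (cov hu f hf hm he hcov).openCover (fun i => loc hu f hf hm i)
    (fun i j => compat hu f hf hm he i j)

theorem ι_gl (i : ι) : Proj.awayι Q (u (f i)) (hu m _ (hf i)) (Nat.mul_pos he hm) ≫
    gl hu f hf hm he hcov = loc hu f hf hm i :=
  Scheme.Cover.ι_glueMorphisms (cov hu f hf hm he hcov).openCover _ _ i

theorem elem_eq (i : ι) {d : ℕ} {p : A} (hp : p ∈ P d) :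
    Away.isLocalizationElem (hu m _ (hf i)) (hu d p hp) =
      (aw hu (f i) (Away.isLocalizationElem (hf i) hp)) ^ e := by
  apply val_injective
  rw [val_pow, aw_val, Away.isLocalizationElem, Away.isLocalizationElem, Away.val_mk, Away.val_mk,
    Localization.mk_eq_mk', Localization.mk_eq_mk']
  have h1 : (Localization.awayMap u (f i)) (IsLocalization.mk' (Localization.Away (f i)) (p ^ m)
      (⟨f i ^ d, d, rfl⟩ : Submonoid.powers (f i))) = IsLocalization.mk' (Localization.Away (u (f i)))
      (u p ^ m) (⟨u (f i) ^ d, d, rfl⟩ : Submonoid.powers (u (f i))) := by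
    show IsLocalization.map _ _ _ _ = _
    rw [IsLocalization.map_mk']
    congr 1
    · rw [map_pow]
    · apply Subtype.ext
      simp
  rw [h1, ← IsLocalization.mk'_pow]
  congr 1
  · rw [← pow_mul, mul_comm]
  · apply Subtype.ext
    show u (f i) ^ (e * d) = (u (f i) ^ d) ^ e
    rw [← pow_mul, mul_comm]

theorem gl_mem (x : Proj Q) {d : ℕ} (hd : 0 < d) {p : A} (hp : p ∈ P d) :
    p ∉ (gl hu f hf hm he hcov x).asHomogeneousIdeal ↔ u p ∉ x.asHomogeneousIdeal := by
  obtain ⟨i, hi⟩ := hcov x
  have hx : x ∈ (Proj.awayι Q (u (f i)) (hu m _ (hf i)) (Nat.mul_pos he hm)).opensRange := by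
    rw [Proj.opensRange_awayι]
    exact hi
  obtain ⟨y, rfl⟩ := hx
  have h1 : gl hu f hf hm he hcov (Proj.awayι Q (u (f i)) (hu m _ (hf i)) (Nat.mul_pos he hm) y) =
      Proj.awayι P (f i) (hf i) hm (Spec.map (CommRingCat.ofHom (aw hu (f i))) y) := by
    rw [← Scheme.Hom.comp_apply, ι_gl, loc, Scheme.Hom.comp_apply]
  rw [h1]
  have h2 : u p ∉ (Proj.awayι Q (u (f i)) (hu m _ (hf i)) (Nat.mul_pos he hm) y).asHomogeneousIdeal ↔
      y ∈ Proj.awayι Q (u (f i)) (hu m _ (hf i)) (Nat.mul_pos he hm) ⁻¹ᵁ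
        Proj.basicOpen Q (u p) := Iff.rfl
  have h3 : p ∉ (Proj.awayι P (f i) (hf i) hm
      (Spec.map (CommRingCat.ofHom (aw hu (f i))) y)).asHomogeneousIdeal ↔
      Spec.map (CommRingCat.ofHom (aw hu (f i))) y ∈ Proj.awayι P (f i) (hf i) hm ⁻¹ᵁ
        Proj.basicOpen P p := Iff.rfl
  rw [h2, h3, Proj.awayι_preimage_basicOpen Q (hu m _ (hf i)) (Nat.mul_pos he hm) (hu d p hp)
    (Nat.mul_pos he hd), Proj.awayι_preimage_basicOpen P (hf i) hm hp hd]
  show (Away.isLocalizationElem (hf i) hp) ∉
      (Spec.map (CommRingCat.ofHom (aw hu (f i))) y).asIdeal ↔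
    Away.isLocalizationElem (hu m _ (hf i)) (hu d p hp) ∉ y.asIdeal
  rw [elem_eq hu f hf i hp]
  have h4 : (Away.isLocalizationElem (hf i) hp) ∉
      (Spec.map (CommRingCat.ofHom (aw hu (f i))) y).asIdeal ↔
      aw hu (f i) (Away.isLocalizationElem (hf i) hp) ∉ y.asIdeal := Iff.rfl
  rw [h4, not_iff_not]
  constructor
  · intro h
    exact Ideal.pow_mem_of_mem _ h _ he
  · intro h
    exact y.isPrime.mem_of_pow_mem _ h

theorem gl_str {R : Type} [CommRing R] (al : R →+* P 0) (be : R →+* Q 0)
    (h : ∀ r, u (al r : A) = (be r : B)) :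
    gl hu f hf hm he hcov ≫ Proj.toSpecZero P ≫ Spec.map (CommRingCat.ofHom al) =
      Proj.toSpecZero Q ≫ Spec.map (CommRingCat.ofHom be) := by
  have key : ∀ i : ι, Proj.awayι Q (u (f i)) (hu m _ (hf i)) (Nat.mul_pos he hm) ≫
      (gl hu f hf hm he hcov ≫ Proj.toSpecZero P ≫ Spec.map (CommRingCat.ofHom al)) =
    Proj.awayι Q (u (f i)) (hu m _ (hf i)) (Nat.mul_pos he hm) ≫
      Proj.toSpecZero Q ≫ Spec.map (CommRingCat.ofHom be) := ?_
  · exact (cov hu f hf hm he hcov).openCover.hom_ext _ _ key
  intro i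
  rw [← Category.assoc, ι_gl, loc, Category.assoc, ← Category.assoc (Proj.awayι P _ _ _),
    Proj.awayι_toSpecZero, ← Category.assoc (Proj.awayι Q _ _ _), Proj.awayι_toSpecZero,
    ← Spec.map_comp, ← Spec.map_comp, ← Spec.map_comp, ← CommRingCat.ofHom_comp,
    ← CommRingCat.ofHom_comp, ← CommRingCat.ofHom_comp]
  congr 2
  ext1 r
  simp only [RingHom.comp_apply]
  apply val_injective
  rw [aw_val]
  show (Localization.awayMap u (f i)) (algebraMap A (Localization.Away (f i)) (al r : A)) =
    algebraMap B (Localization.Away (u (f i))) (be r : B)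
  rw [← h r]
  exact IsLocalization.map_eq _ _

end Glue

end Scale

end GMC.MORA
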