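import Pool.Agent.H30.GMC.StT
import Pool.Agent.H31.GMC.MorAux

/-!
MORA: binary forms without common zeros define a morphism.
-/

open AlgebraicGeometry CategoryTheory FCB MvPolynomial

namespace GMC

namespace MORA

theorem bf_mem {n e : ℕ} (c : Fin (n + 1) × Fin (e + 1) → ℂ) (i : Fin (n + 1)) :
    bf c i ∈ grd 1 e := by
  rw [grd, mem_homogeneousSubmodule, bf]
  apply IsHomogeneous.sum
  intro j _
  have h1 : (C (c (i, j)) : MvPolynomial (Fin 2) ℂ).IsHomogeneous 0 := isHomogeneous_C _ _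
  have h2 : ((X 0 : MvPolynomial (Fin 2) ℂ) ^ (j : ℕ)).IsHomogeneous (1 * (j : ℕ)) :=
    (isHomogeneous_X ℂ 0).pow _
  have h3 : ((X 1 : MvPolynomial (Fin 2) ℂ) ^ (e - (j : ℕ))).IsHomogeneous (1 * (e - (j : ℕ))) :=
    (isHomogeneous_X ℂ 1).pow _
  have h4 := (h1.mul h2).mul h3
  have h5 : 0 + 1 * (j : ℕ) + 1 * (e - (j : ℕ)) = e := by
    have := j.2
    omega
  rwa [h5] at h4

theorem eval_bf {n e : ℕ} (c : Fin (n + 1) × Fin (e + 1) → ℂ) (s t : ℂ) (i : Fin (n + 1)) :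
    eval ![s, t] (bf c i) = ev c s t i := by
  simp [bf, ev]

theorem eval_aeval_bf {n e : ℕ} (c : Fin (n + 1) × Fin (e + 1) → ℂ) (s t : ℂ)
    (p : MvPolynomial (Fin (n + 1)) ℂ) :
    eval ![s, t] (aeval (bf c) p) = eval (ev c s t) p := by
  induction p using MvPolynomial.induction_on with
  | C a => simp
  | add p q hp hq => simp only [map_add, hp, hq]
  | mul_X p i hp => simp only [map_mul, hp, aeval_X, eval_bf, eval_X]

theorem const_mem {n : ℕ} (x : PS n) (hx : (PI x).IsPrime) (v : Fin (n + 1) → ℂ)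
    (p : MvPolynomial (Fin (n + 1)) ℂ) (hp : p.IsHomogeneous 0) :
    p ∈ PI x ↔ eval v p = 0 := by
  rw [← mem_homogeneousSubmodule, homogeneousSubmodule_zero, Submodule.mem_one] at hp
  obtain ⟨z, rfl⟩ := hp
  rw [MvPolynomial.algebraMap_eq, eval_C]
  constructor
  · intro h
    by_contra hz
    apply hx.ne_top
    rw [Ideal.eq_top_iff_one]
    have := (PI x).mul_mem_left (C z⁻¹) h
    rwa [← C_mul, inv_mul_cancel₀ hz, C_1] at this
  · rintro rfl
    rw [C_0]
    exact Ideal.zero_mem _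

theorem cov_pt (hPSB : S_PSB) (hIPT : S_IPT) {n e : ℕ} (c : Fin (n + 1) × Fin (e + 1) → ℂ)
    (hc : ∀ s t : ℂ, ![s, t] ≠ 0 → ev c s t ≠ 0) (x : PS 1) : ∃ i, bf c i ∉ PI x := by
  by_contra hcon
  push Not at hcon
  have hcomp : CompactSpace (PS 1) := by
    have hq : QuasiCompact (PSstr 1) := inferInstance
    exact QuasiCompact.compactSpace_of_compactSpace (PSstr 1)
  obtain ⟨y, hy, hyc⟩ := IsClosed.exists_closed_singleton (isClosed_closure (s := {x}))
    ⟨x, subset_closure rfl⟩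
  have hxy : x ⤳ y := specializes_iff_mem_closure.mpr hy
  have hle := ((hPSB 1).2.2.2.2.1 x y).mp hxy
  obtain ⟨v, hv⟩ := (hIPT 1).2.2.1 y hyc
  have hv0 := ((hIPT 1).2.1 y v hv).1
  have hvv : v = ![v 0, v 1] := by
    ext i
    fin_cases i <;> rfl
  have h1 : ev c (v 0) (v 1) ≠ 0 := hc _ _ (by rwa [← hvv])
  apply h1
  ext i
  have h2 := (hv e (bf c i) (bf_mem c i)).mp (hle (hcon i))
  rw [hvv, eval_bf] at h2
  exact h2

theorem pos_case (hPSB : S_PSB) (hIPT : S_IPT) {n e : ℕ} (he : 0 < e)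
    (c : Fin (n + 1) × Fin (e + 1) → ℂ) (hc : ∀ s t : ℂ, ![s, t] ≠ 0 → ev c s t ≠ 0) :
    ∃ g : PS 1 ⟶ PS n, g ≫ PSstr n = PSstr 1 ∧ IsGiven g c := by
  let u : MvPolynomial (Fin (n + 1)) ℂ →+* MvPolynomial (Fin 2) ℂ := (aeval (bf c)).toRingHom
  have hu : ∀ d a, a ∈ grd n d → u a ∈ grd 1 (e * d) := by
    intro d a ha
    exact IsHomogeneous.aeval (φ := a) ha (bf c) fun i => bf_mem c i
  have huX : ∀ i, u (X i) = bf c i := fun i => aeval_X _ _
  have hf : ∀ i : Fin (n + 1), (X i : MvPolynomial (Fin (n + 1)) ℂ) ∈ grd n 1 :=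
    fun i => isHomogeneous_X ℂ i
  have hcov : ∀ x : Proj (grd 1), ∃ i : Fin (n + 1), u (X i) ∉ x.asHomogeneousIdeal := by
    intro x
    obtain ⟨i, hi⟩ := cov_pt hPSB hIPT c hc x
    refine ⟨i, ?_⟩
    rw [huX]
    exact hi
  refine ⟨gl hu (fun i : Fin (n + 1) => X i) hf one_pos he hcov, ?_, ?_⟩
  · exact gl_str hu (fun i : Fin (n + 1) => X i) hf one_pos he hcov
      (algebraMap ℂ (grd n 0)) (algebraMap ℂ (grd 1 0)) (by
        intro r
        show aeval (bf c) (C r) = C r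
        rw [aeval_C]
        rfl)
  · intro s t x hx d p hp
    rcases Nat.eq_zero_or_pos d with rfl | hd
    · exact const_mem _ ((hPSB n).1 _) _ p hp
    · have h1 := gl_mem hu (fun i : Fin (n + 1) => X i) hf one_pos he hcov x hd (p := p) hp
      have h2 : u p ∈ PI x ↔ eval ![s, t] (u p) = 0 := hx (e * d) (u p) (hu d p hp)
      have h3 : eval ![s, t] (u p) = eval (ev c s t) p := eval_aeval_bf c s t p
      rw [← h3, ← h2]
      exact not_iff_not.mp h1

open HomogeneousLocalization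

theorem lft_unit {n : ℕ} (v : Fin (n + 1) → ℂ) (a : Fin (n + 1)) (ha : v a ≠ 0) :
    IsUnit (eval v (X a)) := by
  rw [eval_X]
  exact isUnit_iff_ne_zero.mpr ha

/-- evaluation at a point on a chart -/
noncomputable def evl {n : ℕ} (v : Fin (n + 1) → ℂ) (a : Fin (n + 1)) (ha : v a ≠ 0) :
    Away (grd n) (X a : MvPolynomial (Fin (n + 1)) ℂ) →+* ℂ :=
  (Localization.awayLift (eval v) (X a) (lft_unit v a ha)).comp
    (algebraMap (Away (grd n) (X a : MvPolynomial (Fin (n + 1)) ℂ))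
      (Localization.Away (X a : MvPolynomial (Fin (n + 1)) ℂ)))

theorem evl_zero {n : ℕ} (v : Fin (n + 1) → ℂ) (a : Fin (n + 1)) (ha : v a ≠ 0)
    (w : grd n 0) : evl v a ha (fromZeroRingHom (grd n) _ w) = eval v (w : MvPolynomial (Fin (n + 1)) ℂ) := by
  have h1 : (fromZeroRingHom (grd n) (Submonoid.powers
      (X a : MvPolynomial (Fin (n + 1)) ℂ)) w).val = algebraMap _ _ (w : MvPolynomial (Fin (n + 1)) ℂ) := by
    rw [fromZeroRingHom]
    rfl
  have h2 : ∀ q, Localization.awayLift (eval v) (X a) (lft_unit v a ha)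
      (algebraMap _ (Localization.Away (X a : MvPolynomial (Fin (n + 1)) ℂ)) q) = eval v q :=
    fun q => IsLocalization.lift_eq _ _
  rw [← h2, ← h1]
  rfl

theorem alg_zero {n : ℕ} (r : ℂ) : ((algebraMap ℂ (grd n 0) r : grd n 0) :
    MvPolynomial (Fin (n + 1)) ℂ) = C r := rfl

theorem evl_comp {n : ℕ} (v : Fin (n + 1) → ℂ) (a : Fin (n + 1)) (ha : v a ≠ 0) :
    (evl v a ha).comp ((fromZeroRingHom (grd n) _).comp (algebraMap ℂ (grd n 0))) =
      RingHom.id ℂ := by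
  ext1 r
  rw [RingHom.comp_apply, RingHom.comp_apply, evl_zero, alg_zero, eval_C, RingHom.id_apply]

theorem evl_elem {n : ℕ} (v : Fin (n + 1) → ℂ) (a : Fin (n + 1)) (ha : v a ≠ 0) {d : ℕ}
    {p : MvPolynomial (Fin (n + 1)) ℂ} (hp : p ∈ grd n d)
    (hX : (X a : MvPolynomial (Fin (n + 1)) ℂ) ∈ grd n 1) :
    evl v a ha (Away.isLocalizationElem hX hp) * v a ^ d = eval v p := by
  have h1 : (Away.isLocalizationElem hX hp).val *
      algebraMap _ _ ((X a : MvPolynomial (Fin (n + 1)) ℂ) ^ d) = algebraMap _ _ p := by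
    rw [Away.isLocalizationElem, Away.val_mk, Localization.mk_eq_mk', pow_one]
    exact IsLocalization.mk'_spec (Localization.Away (X a : MvPolynomial (Fin (n + 1)) ℂ)) p
      (⟨X a ^ d, d, rfl⟩ : Submonoid.powers (X a : MvPolynomial (Fin (n + 1)) ℂ))
  have h2 : ∀ q, Localization.awayLift (eval v) (X a) (lft_unit v a ha)
      (algebraMap _ (Localization.Away (X a : MvPolynomial (Fin (n + 1)) ℂ)) q) = eval v q :=
    fun q => IsLocalization.lift_eq _ _
  have h3 := congrArg (Localization.awayLift (eval v) (X a) (lft_unit v a ha)) h1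
  rw [map_mul, h2, h2, map_pow, eval_X] at h3
  exact h3

theorem X_deg {n : ℕ} (a : Fin (n + 1)) : (X a : MvPolynomial (Fin (n + 1)) ℂ) ∈ grd n 1 :=
  isHomogeneous_X ℂ a

/-- the chart -/
noncomputable def awn {n : ℕ} (a : Fin (n + 1)) :
    Spec (.of (Away (grd n) (X a : MvPolynomial (Fin (n + 1)) ℂ))) ⟶ PS n :=
  Proj.awayι (grd n) (X a : MvPolynomial (Fin (n + 1)) ℂ) (X_deg a) one_pos

/-- the constant morphism -/
noncomputable def cg {n : ℕ} (v : Fin (n + 1) → ℂ) (a : Fin (n + 1)) (ha : v a ≠ 0) :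
    PS 1 ⟶ PS n :=
  PSstr 1 ≫ Spec.map (CommRingCat.ofHom (evl v a ha)) ≫ awn a

theorem aw_str {n : ℕ} (a : Fin (n + 1)) :
    awn a ≫ PSstr n =
      Spec.map (CommRingCat.ofHom ((fromZeroRingHom (grd n)
        (Submonoid.powers (X a : MvPolynomial (Fin (n + 1)) ℂ))).comp
          (algebraMap ℂ (grd n 0)))) := by
  have h4 := Proj.awayι_toSpecZero (grd n) (X a : MvPolynomial (Fin (n + 1)) ℂ)
    (X_deg a) one_pos
  rw [PSstr, CommRingCat.ofHom_comp, Spec.map_comp, ← h4]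
  exact (Category.assoc _ _ _).symm

theorem cg_str {n : ℕ} (v : Fin (n + 1) → ℂ) (a : Fin (n + 1)) (ha : v a ≠ 0) :
    cg v a ha ≫ PSstr n = PSstr 1 := by
  rw [cg, Category.assoc, Category.assoc, aw_str, ← Spec.map_comp, ← CommRingCat.ofHom_comp,
    evl_comp]
  simp

theorem const_case (hPSB : S_PSB) {n : ℕ}
    (c : Fin (n + 1) × Fin (0 + 1) → ℂ) (hc : ∀ s t : ℂ, ![s, t] ≠ 0 → ev c s t ≠ 0) :
    ∃ g : PS 1 ⟶ PS n, g ≫ PSstr n = PSstr 1 ∧ IsGiven g c := by
  have hv : ∀ s t : ℂ, ev c s t = fun i => c (i, 0) := by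
    intro s t
    ext i
    simp [ev]
  have hv0 : (fun i => c (i, 0)) ≠ (0 : Fin (n + 1) → ℂ) := by
    rw [← hv 1 0]
    apply hc
    intro h
    exact one_ne_zero (congrFun h 0)
  obtain ⟨a, ha⟩ := Function.ne_iff.mp hv0
  have ha' : (fun i => c (i, 0)) a ≠ 0 := ha
  refine ⟨cg (fun i => c (i, 0)) a ha', cg_str _ _ _, ?_⟩
  intro s t x hx d p hp
  rw [hv]
  rcases Nat.eq_zero_or_pos d with rfl | hd
  · exact const_mem _ ((hPSB n).1 _) _ p hp
  · have hpd : p ∈ grd n d := hp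
    have h1 : cg (fun i => c (i, 0)) a ha' x = Proj.awayι (grd n)
        (X a : MvPolynomial (Fin (n + 1)) ℂ) (X_deg a) one_pos
          (Spec.map (CommRingCat.ofHom (evl (fun i => c (i, 0)) a ha')) (PSstr 1 x)) := by
      rw [cg, Scheme.Hom.comp_apply, Scheme.Hom.comp_apply]
      rfl
    change p ∈ PI (cg (fun i => c (i, 0)) a ha' x) ↔ _
    rw [h1]
    set y : Spec (.of ℂ) := PSstr 1 x with hy
    have h3 : p ∉ PI (Proj.awayι (grd n) (X a : MvPolynomial (Fin (n + 1)) ℂ) (X_deg a) one_pos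
          (Spec.map (CommRingCat.ofHom (evl (fun i => c (i, 0)) a ha')) y)) ↔
        (Spec.map (CommRingCat.ofHom (evl (fun i => c (i, 0)) a ha')) y) ∈
          Proj.awayι (grd n) (X a : MvPolynomial (Fin (n + 1)) ℂ) (X_deg a) one_pos ⁻¹ᵁ
            Proj.basicOpen (grd n) p := Iff.rfl
    rw [← not_iff_not, h3, Proj.awayι_preimage_basicOpen (grd n) (X_deg a) one_pos hpd hd]
    have h4 : (Spec.map (CommRingCat.ofHom (evl (fun i => c (i, 0)) a ha')) y) ∈
        PrimeSpectrum.basicOpen (Away.isLocalizationElem (X_deg a) hpd) ↔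
        evl (fun i => c (i, 0)) a ha' (Away.isLocalizationElem (X_deg a) hpd) ∉ y.asIdeal := Iff.rfl
    have h5 : y.asIdeal = ⊥ := by
      rcases Ideal.eq_bot_or_top y.asIdeal with h | h
      · exact h
      · exact absurd h y.isPrime.ne_top
    refine h4.trans ?_
    rw [h5, Ideal.mem_bot, ← evl_elem (fun i => c (i, 0)) a ha' hpd (X_deg a)]
    have h6 : (fun i => c (i, 0)) a ^ d ≠ 0 := pow_ne_zero _ ha'
    rw [mul_eq_zero]
    tauto

end MORA

theorem mora_thm (hPSB : S_PSB) (hIPT : S_IPT) : S_MORA := by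
  intro n e c hc
  rcases Nat.eq_zero_or_pos e with rfl | he
  · exact MORA.const_case hPSB c hc
  · exact MORA.pos_case hPSB hIPT he c hc

end GMC
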