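import Pool.Agent.H30.GMC.StT

/-!
MORB: a morphism `ℙ¹ → ℙⁿ` which maps closed points to `V` factors through `V`.
-/

open AlgebraicGeometry CategoryTheory FCB

namespace GMC

namespace MORB

theorem ker_le {X Y Z : Scheme.{0}} (f : X ⟶ Z) (g : Y ⟶ Z) [IsClosedImmersion f] [IsReduced Y]
    (h : Set.range g ⊆ Set.range f) : f.ker ≤ g.ker := by
  refine Scheme.IdealSheafData.le_ofIdeals_iff.mpr ?_
  intro U s hs
  rw [Scheme.Hom.ker_apply, RingHom.mem_ker] at hs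
  rw [RingHom.mem_ker]
  apply (AlgebraicGeometry.basicOpen_eq_bot_iff _).mp
  rw [eq_bot_iff]
  intro y hy
  exfalso
  have h1 : y ∈ g ⁻¹ᵁ (Z.basicOpen s) := by
    rw [Scheme.preimage_basicOpen]
    exact hy
  obtain ⟨x, hx⟩ := h ⟨y, rfl⟩
  have h2 : x ∈ f ⁻¹ᵁ (Z.basicOpen s) := by
    show f x ∈ Z.basicOpen s
    rw [hx]
    exact h1
  rw [Scheme.preimage_basicOpen] at h2
  have h3 : (f.app U.1) s = 0 := hs
  rw [h3, Scheme.basicOpen_zero] at h2
  exact h2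

end MORB

theorem morb_thm (hJ : S_JACO) : S_MORB := by
  intro V g hg
  have hr : Set.range g ⊆ Set.range V.emb := by
    by_contra hcon
    rw [Set.not_subset] at hcon
    obtain ⟨_, ⟨x, rfl⟩, hx⟩ := hcon
    have hcl : IsClosed (Set.range V.emb) := V.emb.isClosedEmbedding.isClosed_range
    have hop : IsOpen (g ⁻¹' (Set.range V.emb)ᶜ) := hcl.isOpen_compl.preimage g.continuous
    obtain ⟨y, hy, hyc⟩ := hJ (PS 1) (PSstr 1) _ hop ⟨x, hx⟩
    obtain ⟨z, hz⟩ := hg y hyc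
    exact hy ⟨z, hz⟩
  exact ⟨IsClosedImmersion.lift V.emb g (MORB.ker_le V.emb g hr),
    IsClosedImmersion.lift_fac V.emb g _⟩

end GMC
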