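import Pool.Agent.H30.GMC.StT

/-!
PVC: projective varieties are compact and proper, complements of coordinate hyperplanes are affine.
-/

open AlgebraicGeometry CategoryTheory FCB MvPolynomial

namespace GMC

theorem pvc_thm : S_PVC := by
  intro V
  have hp : IsProper V.str := by
    rw [← V.comm]
    infer_instance
  refine ⟨?_, hp, ?_⟩
  · have hq : QuasiCompact V.str := inferInstance
    exact QuasiCompact.compactSpace_of_compactSpace V.str
  · intro i
    refine ⟨V.emb ⁻¹ᵁ (Proj.basicOpen (grd V.n) (X i : MvPolynomial (Fin (V.n + 1)) ℂ)), ?_, ?_⟩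
    · apply IsAffineOpen.preimage
      exact Proj.isAffineOpen_basicOpen (grd V.n) (X i) (m := 1) (isHomogeneous_X ℂ i) one_pos
    · intro x
      exact Iff.rfl

end GMC
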